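import Mathlib

set_option autoImplicit false

/-!
# Three-term progressions with rational-function differences: the constant functions in the span

If the rational functions `P₁/Q₁` and `P₂/Q₂` are linearly independent over `ℚ` but a nonzero constant is a
linear combination of them, then there are sets of positive density in all large prime fields without the
progression `x, x + P₁(y)/Q₁(y), x + P₂(y)/Q₂(y)`. The condition `P₁(0) = P₂(0) = 0` does not exclude this,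
as the denominators may vanish at `0`: an example is `P₁/Q₁ = y / 1`, `P₂/Q₂ = (y ^ 2 + y) / y`.
-/

namespace Pool.Agent.Results.MP_4db342_co.ConstantInSpan

open Polynomial

/-- The hypotheses of the question on the quadruple. -/
structure Admissible (P₁ P₂ Q₁ Q₂ : ℤ[X]) : Prop where
  den₁ : Q₁ ≠ 0
  den₂ : Q₂ ≠ 0
  zero₁ : P₁.eval 0 = 0
  zero₂ : P₂.eval 0 = 0
  independent : LinearIndependent ℚ ![(algebraMap ℚ[X] (RatFunc ℚ) (P₁.map (Int.castRingHom ℚ))) /
      algebraMap ℚ[X] (RatFunc ℚ) (Q₁.map (Int.castRingHom ℚ)),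
    (algebraMap ℚ[X] (RatFunc ℚ) (P₂.map (Int.castRingHom ℚ))) /
      algebraMap ℚ[X] (RatFunc ℚ) (Q₂.map (Int.castRingHom ℚ))]

/-- `A` contains no nontrivial progression `x, x + P₁(y)/Q₁(y), x + P₂(y)/Q₂(y)`. -/
def NoProgression (P₁ P₂ Q₁ Q₂ : ℤ[X]) (p : ℕ) (A : Finset (ZMod p)) : Prop :=
  ∀ x y : ZMod p, y ≠ 0 → aeval y Q₁ * aeval y Q₂ ≠ 0 →
    ¬ (x ∈ A ∧ x + aeval y P₁ * (aeval y Q₁)⁻¹ ∈ A ∧ x + aeval y P₂ * (aeval y Q₂)⁻¹ ∈ A)

/-- The property of the quadruple which the question asks for: a power saving bound for all sets without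
nontrivial progressions, uniformly in all primes. -/
def PowerSaving (P₁ P₂ Q₁ Q₂ : ℤ[X]) : Prop :=
  ∃ γ : ℝ, 0 < γ ∧ ∃ C : ℝ, ∀ p : ℕ, p.Prime → ∀ A : Finset (ZMod p),
    NoProgression P₁ P₂ Q₁ Q₂ p A → (A.card : ℝ) ≤ C * (p : ℝ) ^ (1 - γ)

/-- The set `{m t : 0 ≤ t < T}` in `ZMod p`. -/
def multiples (p m T : ℕ) : Finset (ZMod p) :=
  (Finset.range T).image fun t => ((m * t : ℕ) : ZMod p)

theorem card_multiples {p m T : ℕ} (hm : 0 < m) (h : m * T ≤ p) :
    (multiples p m T).card = T := by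
  unfold multiples
  rw [Finset.card_image_of_injOn, Finset.card_range]
  intro t ht t' ht' hte
  simp only [Finset.coe_range, Set.mem_Iio] at ht ht'
  have h1 : m * t < p := lt_of_lt_of_le (Nat.mul_lt_mul_of_pos_left ht hm) h
  have h2 : m * t' < p := lt_of_lt_of_le (Nat.mul_lt_mul_of_pos_left ht' hm) h
  have h3 := congrArg ZMod.val hte
  simp only at h3
  rw [ZMod.val_natCast, ZMod.val_natCast, Nat.mod_eq_of_lt h1, Nat.mod_eq_of_lt h2] at h3
  exact Nat.eq_of_mul_eq_mul_left hm h3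

theorem result :
    (∀ P₁ P₂ Q₁ Q₂ : ℤ[X], ∀ a b c : ℤ, c ≠ 0 → C a * P₁ * Q₂ + C b * P₂ * Q₁ = C c * Q₁ * Q₂ →
      ∃ δ : ℝ, 0 < δ ∧ ∀ p : ℕ, p.Prime → 1 ≤ δ * p → ∃ A : Finset (ZMod p),
        NoProgression P₁ P₂ Q₁ Q₂ p A ∧ δ * p ≤ A.card) ∧
    (∀ P₁ P₂ Q₁ Q₂ : ℤ[X], ∀ a b c : ℤ, c ≠ 0 → C a * P₁ * Q₂ + C b * P₂ * Q₁ = C c * Q₁ * Q₂ →
      ¬ PowerSaving P₁ P₂ Q₁ Q₂) ∧
    Admissible X (X ^ 2 + X) 1 X ∧ ¬ PowerSaving X (X ^ 2 + X) 1 X ∧
    ¬ ∀ P₁ P₂ Q₁ Q₂ : ℤ[X], Admissible P₁ P₂ Q₁ Q₂ → PowerSaving P₁ P₂ Q₁ Q₂ := by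
  have h1 : ∀ P₁ P₂ Q₁ Q₂ : ℤ[X], ∀ a b c : ℤ, c ≠ 0 →
      C a * P₁ * Q₂ + C b * P₂ * Q₁ = C c * Q₁ * Q₂ →
      ∃ δ : ℝ, 0 < δ ∧ ∀ p : ℕ, p.Prime → 1 ≤ δ * p → ∃ A : Finset (ZMod p),
        NoProgression P₁ P₂ Q₁ Q₂ p A ∧ δ * p ≤ A.card := by
    intro P₁ P₂ Q₁ Q₂ a b c hc hrel
    -- modulus m and constant K
    set m : ℕ := c.natAbs + 1 with hm
    set K : ℕ := 2 * (a.natAbs + b.natAbs) + c.natAbs + 1 with hK
    have hm0 : 0 < m := by omega
    have hK0 : 0 < K := by omega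
    refine ⟨1 / (2 * (m * K) : ℝ), by positivity, ?_⟩
    intro p hp hp1
    have : Fact p.Prime := ⟨hp⟩
    have hmK : (0 : ℝ) < m * K := by positivity
    have hbig : 2 * (m * K) ≤ p := by
      have h3 : (2 * (m * K) : ℝ) ≤ p := by
        rw [div_mul_eq_mul_div, one_mul, le_div_iff₀ (by positivity)] at hp1
        linarith
      exact_mod_cast h3
    set T : ℕ := p / (m * K) with hT
    have hmKn : 0 < m * K := Nat.mul_pos hm0 hK0
    have hTle : m * K * T ≤ p := Nat.mul_div_le p (m * K)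
    have hTlt : m * T * K < p := by
      have h5 : m * K * T ≠ p := by
        intro h
        have h6 : K * m ∣ p := ⟨T, by rw [← h]; ring⟩
        have h7 : m * K ∣ p := by rwa [mul_comm] at h6
        rcases (Nat.dvd_prime hp).mp h7 with h8 | h8
        · have h9 : m = 1 := Nat.eq_one_of_mul_eq_one_right h8
          have h10 : 0 < c.natAbs := Int.natAbs_pos.mpr hc
          omega
        · omega
      have h11 : m * K * T = m * T * K := by ring
      omega
    refine ⟨multiples p m T, ?_, ?_⟩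
    · -- no progression
      intro x y _ hQ hA
      obtain ⟨h0, h1, h2⟩ := hA
      have hQ1 : aeval y Q₁ ≠ 0 := left_ne_zero_of_mul hQ
      have hQ2 : aeval y Q₂ ≠ 0 := right_ne_zero_of_mul hQ
      unfold multiples at h0 h1 h2
      rw [Finset.mem_image] at h0 h1 h2
      obtain ⟨t0, ht0, e0⟩ := h0
      obtain ⟨t1, ht1, e1⟩ := h1
      obtain ⟨t2, ht2, e2⟩ := h2
      rw [Finset.mem_range] at ht0 ht1 ht2
      have hev := congrArg (fun f : ℤ[X] => aeval y f) hrel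
      simp only [map_add, map_mul, eq_intCast, map_intCast] at hev
      -- a (z1 - z0) + b (z2 - z0) = c
      have hlin : (a : ZMod p) * (((m * t1 : ℕ) : ZMod p) - ((m * t0 : ℕ) : ZMod p)) +
          (b : ZMod p) * (((m * t2 : ℕ) : ZMod p) - ((m * t0 : ℕ) : ZMod p)) = (c : ZMod p) := by
        rw [e0, e1, e2, add_sub_cancel_left, add_sub_cancel_left]
        field_simp
        linear_combination hev
      have hint : ((a * ((m : ℤ) * t1 - m * t0) + b * ((m : ℤ) * t2 - m * t0) - c : ℤ) : ZMod p) = 0 := by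
        push_cast
        push_cast at hlin
        linear_combination hlin
      rw [ZMod.intCast_zmod_eq_zero_iff_dvd] at hint
      have habs : |a * ((m : ℤ) * t1 - m * t0) + b * ((m : ℤ) * t2 - m * t0) - c| < p := by
        have k1 : |(m : ℤ) * t1 - m * t0| ≤ m * T := by
          rw [abs_le]
          constructor <;> nlinarith [(Nat.cast_nonneg t0 : (0 : ℤ) ≤ t0), (Nat.cast_nonneg t1 : (0 : ℤ) ≤ t1),
            (Nat.cast_nonneg m : (0 : ℤ) ≤ m), (by exact_mod_cast ht0.le : (t0 : ℤ) ≤ T),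
            (by exact_mod_cast ht1.le : (t1 : ℤ) ≤ T)]
        have k2 : |(m : ℤ) * t2 - m * t0| ≤ m * T := by
          rw [abs_le]
          constructor <;> nlinarith [(Nat.cast_nonneg t0 : (0 : ℤ) ≤ t0), (Nat.cast_nonneg t2 : (0 : ℤ) ≤ t2),
            (Nat.cast_nonneg m : (0 : ℤ) ≤ m), (by exact_mod_cast ht0.le : (t0 : ℤ) ≤ T),
            (by exact_mod_cast ht2.le : (t2 : ℤ) ≤ T)]
        have hT1 : 1 ≤ m * T := by
          have : 0 < T := Nat.lt_of_le_of_lt (Nat.zero_le _) ht0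
          exact Nat.mul_pos hm0 this
        have k3 : |a * ((m : ℤ) * t1 - m * t0)| ≤ |a| * (m * T) := by
          rw [abs_mul]; exact mul_le_mul_of_nonneg_left k1 (abs_nonneg _)
        have k4 : |b * ((m : ℤ) * t2 - m * t0)| ≤ |b| * (m * T) := by
          rw [abs_mul]; exact mul_le_mul_of_nonneg_left k2 (abs_nonneg _)
        have k5 : |c| ≤ |c| * (m * T) := by
          have : (1 : ℤ) ≤ m * T := by exact_mod_cast hT1
          nlinarith [abs_nonneg c]
        have k6 : (m : ℤ) * T * K < p := by exact_mod_cast hTlt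
        have k7 : (K : ℤ) = 2 * (|a| + |b|) + |c| + 1 := by
          rw [hK]; push_cast; rfl
        have k8 : |a * ((m : ℤ) * t1 - m * t0) + b * ((m : ℤ) * t2 - m * t0) - c| ≤
            |a * ((m : ℤ) * t1 - m * t0)| + |b * ((m : ℤ) * t2 - m * t0)| + |c| :=
          (abs_sub _ _).trans (add_le_add_left (abs_add_le _ _) _)
        have k9 : (0 : ℤ) ≤ m * T := by positivity
        rw [k7] at k6
        nlinarith [abs_nonneg a, abs_nonneg b, abs_nonneg c, mul_nonneg (abs_nonneg a) k9,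
          mul_nonneg (abs_nonneg b) k9]
      have hzero := Int.eq_zero_of_abs_lt_dvd hint habs
      have hdvd : (m : ℤ) ∣ c := ⟨a * (t1 - t0) + b * (t2 - t0), by linear_combination -hzero⟩
      have h12 := Int.natAbs_dvd_natAbs.mpr hdvd
      rw [Int.natAbs_natCast] at h12
      have h13 := Nat.le_of_dvd (Int.natAbs_pos.mpr hc) h12
      omega
    · have h14 : m * T ≤ p := by
        have : m * T ≤ m * T * K := Nat.le_mul_of_pos_right _ hK0
        omega
      rw [card_multiples hm0 h14]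
      have h15 : p < m * K * (T + 1) := Nat.lt_mul_div_succ p hmKn
      have h16 : 1 ≤ T := (Nat.one_le_div_iff hmKn).mpr (by omega)
      have h17 : p ≤ 2 * (m * K) * T := by nlinarith
      have h18 : (p : ℝ) ≤ 2 * (m * K) * T := by exact_mod_cast h17
      rw [div_mul_eq_mul_div, one_mul, div_le_iff₀ (by positivity)]
      linarith
  have h2 : ∀ P₁ P₂ Q₁ Q₂ : ℤ[X], ∀ a b c : ℤ, c ≠ 0 →
      C a * P₁ * Q₂ + C b * P₂ * Q₁ = C c * Q₁ * Q₂ → ¬ PowerSaving P₁ P₂ Q₁ Q₂ := by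
    rintro P₁ P₂ Q₁ Q₂ a b c hc hrel ⟨γ, hγ, D, hD⟩
    obtain ⟨δ, hδ, h⟩ := h1 P₁ P₂ Q₁ Q₂ a b c hc hrel
    have hlim : Filter.Tendsto (fun n : ℕ => D * (n : ℝ) ^ (-γ)) Filter.atTop (nhds 0) := by
      have := ((tendsto_rpow_neg_atTop hγ).comp tendsto_natCast_atTop_atTop).const_mul D
      simpa using this
    have hev := hlim.eventually (gt_mem_nhds hδ)
    obtain ⟨N, hN⟩ := Filter.eventually_atTop.mp (hev.and
      ((Filter.tendsto_atTop.mp (tendsto_natCast_atTop_atTop (R := ℝ)) (1 / δ))))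
    obtain ⟨p, hpN, hp⟩ := Nat.exists_infinite_primes N
    obtain ⟨h3, h4⟩ := hN p hpN
    have hp0 : (0 : ℝ) < p := by exact_mod_cast hp.pos
    obtain ⟨A, hA, hA'⟩ := h p hp (by rw [div_le_iff₀ hδ] at h4; linarith)
    have h5 := hD p hp A hA
    have h6 : (p : ℝ) ^ (1 - γ) = p * (p : ℝ) ^ (-γ) := by
      rw [sub_eq_add_neg, Real.rpow_add hp0, Real.rpow_one]
    rw [h6] at h5
    have h7 : D * (p * (p : ℝ) ^ (-γ)) = (D * (p : ℝ) ^ (-γ)) * p := by ring
    rw [h7] at h5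
    have h8 : (D * (p : ℝ) ^ (-γ)) * p < δ * p := mul_lt_mul_of_pos_right h3 hp0
    linarith
  have h3 : Admissible X (X ^ 2 + X) 1 X := by
    refine ⟨one_ne_zero, X_ne_zero, by simp, by simp, ?_⟩
    rw [LinearIndependent.pair_iff]
    intro s t hst
    have hX : (algebraMap ℚ[X] (RatFunc ℚ)) X ≠ 0 := by
      rw [RatFunc.algebraMap_X]; exact RatFunc.X_ne_zero
    have e1 : (algebraMap ℚ[X] (RatFunc ℚ)) (((X : ℤ[X]) ^ 2 + X).map (Int.castRingHom ℚ)) /
        algebraMap ℚ[X] (RatFunc ℚ) ((X : ℤ[X]).map (Int.castRingHom ℚ)) =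
        algebraMap ℚ[X] (RatFunc ℚ) (X + 1) := by
      rw [Polynomial.map_X, Polynomial.map_add, Polynomial.map_pow, Polynomial.map_X,
        div_eq_iff hX, ← map_mul]
      congr 1
      ring
    have e2 : (algebraMap ℚ[X] (RatFunc ℚ)) ((X : ℤ[X]).map (Int.castRingHom ℚ)) /
        algebraMap ℚ[X] (RatFunc ℚ) ((1 : ℤ[X]).map (Int.castRingHom ℚ)) =
        algebraMap ℚ[X] (RatFunc ℚ) X := by
      rw [Polynomial.map_X, Polynomial.map_one, map_one, div_one]
    rw [e1, e2, ← algebraMap_smul ℚ[X] s, ← algebraMap_smul ℚ[X] t, Algebra.smul_def, Algebra.smul_def,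
      ← map_mul, ← map_mul, ← map_add] at hst
    have h4 : (algebraMap ℚ ℚ[X] s) * X + (algebraMap ℚ ℚ[X] t) * (X + 1) = 0 := by
      apply RatFunc.algebraMap_injective ℚ
      rw [map_zero]
      exact hst
    rw [Polynomial.algebraMap_eq] at h4
    have h5 := congrArg (fun f : ℚ[X] => f.eval 0) h4
    have h6 := congrArg (fun f : ℚ[X] => f.eval (-1)) h4
    simp at h5 h6
    exact ⟨h6, h5⟩
  have h4 : ¬ PowerSaving X (X ^ 2 + X) 1 X := by
    refine h2 X (X ^ 2 + X) 1 X (-1) 1 1 one_ne_zero ?_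
    simp only [map_neg, map_one]
    ring
  exact ⟨h1, h2, h3, h4, fun h => h4 (h _ _ _ _ h3)⟩

end Pool.Agent.Results.MP_4db342_co.ConstantInSpan
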